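import Pool.Agent.H57.CS.Asm
import Pool.Agent.H57.LH.All
import Pool.Agent.H34.CS.CSC
import Pool.Agent.H20.CS.CSN
import Pool.Agent.H20.CS.FLG
import Pool.Agent.H34.CS.SNC
import Pool.Agent.H14.CS.SNI
import Pool.Agent.H14.CS.SNT
import Pool.Agent.H67.CN.RLX

/-!
# The structure on the names: the theorem
-/

set_option autoImplicit false
set_option linter.unusedVariables false

namespace Pool.Agent.H57.CS

open Pool.Agent.H68.BP Pool.Agent.H58.SF Pool.Agent.H53.GC Pool.Agent.H53.NR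
open Pool.Agent.H57.LH
open Pool.Agent.H44.KR (HB Tyi P1)
open Pool.Agent.H44.FB (F1 F2 fbI Bl)
open Pool.Agent.H72.CH

theorem a_CR : CR where
  snt := Pool.Agent.H14.CS.pf_SNT
  sni := Pool.Agent.H14.CS.pf_SNI
  snc := Pool.Agent.H34.CS.pf_SNC
  csc := Pool.Agent.H34.CS.pf_CSC (Pool.Agent.H20.CS.pf_FLG Pool.Agent.H67.CN.pf_RLX)
  csn := Pool.Agent.H20.CS.pf_CSN

/-- The theorem for chains, from the injections and the fibres on the names. -/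
theorem chains_main {V N : Type} {σ ρ δ : Sig} {𝔸 : Str σ V} {𝔹 : Str ρ V} {m : ℕ}
    {lv : V → V → ℕ} {𝔻 : Str δ N} {st : N → Fin m} {β : (Fin m → N) → V} (hV : HV 𝔹 m lv)
    (hm : 1 ≤ m) (hN : Nm 𝔹 m lv 𝔻 st β) (ht : Tyi 𝔸 𝔹) (hI : InjL 𝔸 lv)
    (hK : ∀ M, 1 ≤ M → ¬ PPConstructsK3 (fbI (NmS 𝔸 st β) 𝔻 M (Bl (NmS 𝔸 st β) 𝔻))) :
    ∃ (σ' : Sig) (Y : Type) (_ : Finite Y) (𝕋 : Str σ' Y),
      ¬ PPConstructsK3 𝕋 ∧ N793a5b8e.ManyOneReducible (CSP 𝔸) (CSP 𝕋) :=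
  chains_fin a_CR Pool.Agent.H44.KR.a_P1 a_LR a_LK a_LT lg Pool.Agent.H44.FB.a_F1
    Pool.Agent.H44.FB.a_F2 Pool.Agent.H53.GXR.All.a_OUX Pool.Agent.H53.GXR.All.a_ALG
    Pool.Agent.H53.GXR.All.a_LIMX Pool.Agent.H97.GM.pf_PAD hV hm hN ht hI hK

end Pool.Agent.H57.CS
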