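import Pool.Agent.H57.CS.Core
import Pool.Agent.H68.IT.Both

/-!
# The structure on the names: the theorem for chains with injections
-/

set_option autoImplicit false
set_option linter.unusedVariables false

namespace Pool.Agent.H57.CS

open Pool.Agent.H68.BP Pool.Agent.H58.SF Pool.Agent.H53.GC Pool.Agent.H53.NR
open Pool.Agent.H57.LH
open Pool.Agent.H44.KR (HB Tyi P1)
open Pool.Agent.H44.FB (F1 F2 fbI Bl)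
open Pool.Agent.H72.CH

/-- the rows -/
structure CR : Prop where
  snt : T_SNT
  sni : T_SNI
  snc : T_SNC
  csc : T_CSC
  csn : T_CSN

theorem chains_fin (hC : CR) (h1 : P1) (hR : LR) (hKK : LK) (hT : LT) (hG : LG) (h : F1) (h2 : F2)
    (hOUX : Pool.Agent.H53.GX.T_OUX) (hALG : Pool.Agent.H53.GX.T_ALG)
    (hLIM : Pool.Agent.H53.GX.T_LIMX) (hPAD : Pool.Agent.H53.GM.T_PAD)
    {V N : Type} {σ ρ δ : Sig} {𝔸 : Str σ V} {𝔹 : Str ρ V} {m : ℕ} {lv : V → V → ℕ}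
    {𝔻 : Str δ N} {st : N → Fin m} {β : (Fin m → N) → V} (hV : HV 𝔹 m lv) (hm : 1 ≤ m)
    (hN : Nm 𝔹 m lv 𝔻 st β) (ht : Tyi 𝔸 𝔹) (hI : InjL 𝔸 lv)
    (hK : ∀ M, 1 ≤ M → ¬ PPConstructsK3 (fbI (NmS 𝔸 st β) 𝔻 M (Bl (NmS 𝔸 st β) 𝔻))) :
    ∃ (σ' : Sig) (Y : Type) (_ : Finite Y) (𝕋 : Str σ' Y),
      ¬ PPConstructsK3 𝕋 ∧ N793a5b8e.ManyOneReducible (CSP 𝔸) (CSP 𝕋) := by
  have hS : Tyi (NmS 𝔸 st β) 𝔻 := hC.snt V N σ ρ δ 𝔸 𝔹 m lv 𝔻 st β hN ht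
  obtain ⟨σ', Y, hY, 𝕋, h3, h4⟩ := core' h1 hR hKK hT hG ⟨hN.hb, hN.cnt, hS⟩
    (hC.sni V N σ ρ δ 𝔸 𝔹 m lv 𝔻 st β hV.lev.pl hN ht hI)
    (hC.snc V N σ ρ δ 𝔸 𝔹 m lv 𝔻 st β hN)
    (fun M hM => fib_tail h h2 hOUX hALG hLIM hPAD hN.hb hN.cnt hS M hM (hK M hM))
  exact ⟨σ', Y, hY, 𝕋, h3, Pool.Agent.H68.IT.manyOne_trans
    (hC.csn V N σ m 𝔸 (NmS 𝔸 st β) hm (hC.csc V N σ ρ δ 𝔸 𝔹 m lv 𝔻 st β hV hm hN ht)) h4⟩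

end Pool.Agent.H57.CS
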