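import Pool.Agent.H72.CH.Defs
import Pool.Agent.H57.LH.Targets
import Pool.Agent.H44.FB.Targets
import Pool.Agent.H57.CN.Targets

/-!
# The structure on the names: targets
-/

set_option autoImplicit false
set_option linter.unusedVariables false

namespace Pool.Agent.H57.CS

open Pool.Agent.H68.BP Pool.Agent.H58.SF Pool.Agent.H53.GC Pool.Agent.H53.NR
open Pool.Agent.H57.AR (tp ty Ty INJ)
open Pool.Agent.H57.SO (Bh Sbn)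
open Pool.Agent.H57.LH (SS vs P0 c0 tfL)
open Pool.Agent.H44.KR (HB Tyi)
open Pool.Agent.H44.FB (fbI Bl)
open Pool.Agent.H72.CH
open Function

/-- The relations on the names depend only on types. -/
def T_SNT : Prop :=
  ∀ (V N : Type) (σ ρ δ : Sig) (𝔸 : Str σ V) (𝔹 : Str ρ V) (m : ℕ) (lv : V → V → ℕ)
    (𝔻 : Str δ N) (st : N → Fin m) (β : (Fin m → N) → V), Nm 𝔹 m lv 𝔻 st β → Tyi 𝔸 𝔹 →
    Tyi (NmS 𝔸 st β) 𝔻

/-- the injection on the names -/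
def T_SNI : Prop :=
  ∀ (V N : Type) (σ ρ δ : Sig) (𝔸 : Str σ V) (𝔹 : Str ρ V) (m : ℕ) (lv : V → V → ℕ)
    (𝔻 : Str δ N) (st : N → Fin m) (β : (Fin m → N) → V), PLev m lv → Nm 𝔹 m lv 𝔻 st β →
    Tyi 𝔸 𝔹 → InjL 𝔸 lv → INJ (P0 𝔻) (NmS 𝔸 st β) (c0 𝔻)

/-- cyclic actions on the sorts -/
def T_SNC : Prop :=
  ∀ (V N : Type) (σ ρ δ : Sig) (𝔸 : Str σ V) (𝔹 : Str ρ V) (m : ℕ) (lv : V → V → ℕ)
    (𝔻 : Str δ N) (st : N → Fin m) (β : (Fin m → N) → V), Nm 𝔹 m lv 𝔻 st β →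
    ∀ p : ℕ, 1 ≤ p → ∃ τ : (ZMod p → SS 𝔻) → SS 𝔻, Sbn (P0 𝔻) (NmS 𝔸 st β) (c0 𝔻) τ ∧
      ∀ t, τ (fun i => t (i + 1)) = τ t

/-- the instance on the names: `m` names for each variable -/
def blN {σ : Sig} (m : ℕ) {n : ℕ} (𝕏 : Str σ (Fin n)) : Str (sigN σ m) (Fin (n * m)) :=
  fun l z => ∃ y : Fin (σ.ar l) → Fin n, 𝕏 l y ∧
    ∀ q : Fin (σ.ar l) × Fin m, z (finProdFinEquiv q) = finProdFinEquiv (y q.1, q.2)

/-- the reduction to the structure on the names is computable in polynomial time -/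
def T_CSN : Prop :=
  ∀ (V N : Type) (σ : Sig) (m : ℕ) (𝔸 : Str σ V) (𝔸' : Str (sigN σ m) N), 1 ≤ m →
    (∀ (n : ℕ) (𝕏 : Str σ (Fin n)), (∃ f, IsHom 𝕏 𝔸 f) ↔ ∃ f, IsHom (blN m 𝕏) 𝔸' f) →
    N793a5b8e.ManyOneReducible (CSP 𝔸) (CSP 𝔸')

/-- Finite tuples are given by names: they are extended to exact maps of flags. -/
def T_FLG : Prop :=
  ∀ (V : Type) (ρ : Sig) (𝔹 : Str ρ V) (m : ℕ) (lv : V → V → ℕ), HV 𝔹 m lv →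
    ∀ (W : Type) [Finite W] (f : W → V), ∃ (J : Type) (_ : Finite J) (s : J → Fin m)
      (w : W → Fl s) (g : Fl s → V),
      (∀ u u' : Fl s, ∀ j ≤ m, j ≤ lv (g u) (g u') ↔ Agr j u.1 u'.1) ∧
      tp 𝔹 (fun x => g (w x)) = tp 𝔹 f

/-- correctness of the reduction -/
def T_CSC : Prop :=
  ∀ (V N : Type) (σ ρ δ : Sig) (𝔸 : Str σ V) (𝔹 : Str ρ V) (m : ℕ) (lv : V → V → ℕ)
    (𝔻 : Str δ N) (st : N → Fin m) (β : (Fin m → N) → V), HV 𝔹 m lv → 1 ≤ m →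
    Nm 𝔹 m lv 𝔻 st β → Tyi 𝔸 𝔹 → ∀ (n : ℕ) (𝕏 : Str σ (Fin n)),
    (∃ f, IsHom 𝕏 𝔸 f) ↔ ∃ f, IsHom (blN m 𝕏) (NmS 𝔸 st β) f

end Pool.Agent.H57.CS
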