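import Pool.Agent.H57.LH.Asm
import Pool.Agent.H44.FB.Asm
import Pool.Agent.H57.CS.Targets

/-!
# The structure on the names: assembly
-/

set_option autoImplicit false
set_option linter.unusedVariables false

namespace Pool.Agent.H57.CS

open Pool.Agent.H68.BP Pool.Agent.H58.SF Pool.Agent.H53.GC Pool.Agent.H53.NR
open Pool.Agent.H53.GR (Dm Ps)
open Pool.Agent.H53.GM (Connected Avoids Val Cols DmG)
open Pool.Agent.H53.GX (FmX tmX)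
open Pool.Agent.H57.AR (tp ty tpo pullO Ty OT HomEq El ElD FamR Od GmR INJ T_BHIR T_CYBR)
open Pool.Agent.H57.SO (Pal Col vt Bh Sbn fib sigF SF)
open Pool.Agent.H57.EQ (Cx T_CYF T_CYC T_NKC T_OLG)
open Pool.Agent.H57.LH
open Pool.Agent.H44.KR (HB Amg Tyi RmL LcN P1)
open Pool.Agent.H44.FB (F1 F2 fbI Bl NC sigC co CI alI FmI sy tyI tyi_fbI ps_empty)
open Function
open Classical

section

variable {V : Type} {σ ρ : Sig} {𝔸 : Str σ V} {𝔹 : Str ρ V}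

/-- The template of the fibres has an Olšák polymorphism if the structure of the fibres does not
construct `K₃`. -/
theorem fib_tail (h : F1) (h2 : F2) (hOUX : Pool.Agent.H53.GX.T_OUX)
    (hALG : Pool.Agent.H53.GX.T_ALG) (hLIM : Pool.Agent.H53.GX.T_LIMX)
    (hPAD : Pool.Agent.H53.GM.T_PAD) (hB : HB 𝔹) (hc : Countable V) (ht : Tyi 𝔸 𝔹)
    (m : ℕ) (hm : 1 ≤ m) (hK' : ¬ PPConstructsK3 (fbI 𝔸 𝔹 m (Bl 𝔸 𝔹))) :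
    HasOlsak (tfL 𝔸 𝔹 m (c0 𝔹)) (tfL 𝔸 𝔹 m (c0 𝔹)) := by
  have hne : Nonempty V := hB.ne
  have hol : Oligo (fbI 𝔸 𝔹 m (Bl 𝔸 𝔹)) := h.oli V _ ρ _ 𝔹 hB hc (tyi_fbI ht m _)
  have halw := h2.alw V σ ρ 𝔸 𝔹 hB ht m
  obtain ⟨N₁, hN₁⟩ := h2.lsb V σ ρ 𝔹 hB m (Bl 𝔸 𝔹)
  obtain ⟨Ls, hLs1, hLs2⟩ := h2.lst V σ ρ 𝔹 m (Bl 𝔸 𝔹) N₁ hN₁
  have htpe := h2.tpe V σ ρ 𝔸 𝔹 m halw Ls hLs2
  have har : ∀ c, 1 ≤ (sigC 𝔹 σ m).ar c := fun c => (co 𝔹 σ m c).2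
  obtain ⟨K, F, hF, hval, hT⟩ := hPAD (sigC 𝔹 σ m) (sigF (SS 𝔹) σ m) (alI 𝔸 𝔹 m (Bl 𝔸 𝔹)) Ls V
    (fbI 𝔸 𝔹 m (Bl 𝔸 𝔹)) hne har hLs1 htpe
  have hval' : ∀ (W : Type) [Finite W] [Nonempty W] (M : Str (sigC 𝔹 σ m) W),
      Val F M ↔ ∃ f : W → V, IsHom M (NC 𝔹 σ m (Bl 𝔸 𝔹)) f := fun W _ hW M =>
    (hval W M hW).trans (hLs2 W M)
  have hmK : m ≤ K := by
    obtain ⟨v⟩ := hne
    let q₀ : SF (SS 𝔹) σ m := ⟨none, ⟨m, Nat.lt_succ_self m⟩, id, fun _ => vs 𝔹 v⟩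
    have h3 : ((sigF (SS 𝔹) σ m).ar (Finite.equivFin (SF (SS 𝔹) σ m) q₀)) = m := by
      show (((Finite.equivFin (SF (SS 𝔹) σ m)).symm
        (Finite.equivFin (SF (SS 𝔹) σ m) q₀)).2.1 : ℕ) = m
      rw [Equiv.symm_apply_apply]
    let c₀ : CI 𝔹 σ m := ⟨⟨Finite.equivFin (SF (SS 𝔹) σ m) q₀, fun _ _ => True⟩, by
      show 1 ≤ (sigF (SS 𝔹) σ m).ar (Finite.equivFin (SF (SS 𝔹) σ m) q₀)
      rw [h3]
      exact hm⟩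
    have h4 := (hF.ar (Finite.equivFin (CI 𝔹 σ m) c₀)).2
    have h5 : (sigC 𝔹 σ m).ar (Finite.equivFin (CI 𝔹 σ m) c₀) = m := by
      show (sigF (SS 𝔹) σ m).ar ((Finite.equivFin (CI 𝔹 σ m)).symm
        (Finite.equivFin (CI 𝔹 σ m) c₀)).1.1 = m
      rw [Equiv.symm_apply_apply]
      exact h3
    rw [h5] at h4
    exact h4
  obtain ⟨E, hE⟩ := h2.ept V σ ρ 𝔸 𝔹 hB (h.emb V ρ 𝔹 hB hc (h.cpt V ρ 𝔹 hB)) m K hmK F hval'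
  obtain ⟨R, hRR⟩ := h2.rpt V σ ρ 𝔸 𝔹 hB m K hm hmK (fun c => (hF.ar c).2) F halw hval'
  obtain ⟨o, ho, hoo⟩ : HasOlsak (tmX F (alI 𝔸 𝔹 m (Bl 𝔸 𝔹))) (tmX F (alI 𝔸 𝔹 m (Bl 𝔸 𝔹))) :=
    hLIM _ _ K F _ hF fun k hk => hALG _ _ K F _ hF k hk fun I a₀ ha₀ =>
      hOUX _ _ K F _ V _ hc hne hol hK' hF hT k hk I a₀ ha₀
  have hpoly := (Pool.Agent.H68.GC.poly_strOn _ _ _).1 ho
  refine ⟨fun d => R (o fun c => E (d c)), ?_, fun x y => ?_⟩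
  · refine (Pool.Agent.H68.GC.poly_strOn _ _ _).2 ?_
    intro s q hq
    have hq' : ∀ c, FmI 𝔸 𝔹 m s (q c) := hq
    show FmI 𝔸 𝔹 m s fun p => R (o fun c => E (q c p))
    rcases Nat.eq_zero_or_pos ((sigF (SS 𝔹) σ m).ar s.1) with h0 | h0
    · have h3 : (fun p => R (o fun c => E (q c p))) = q 0 := by
        funext p
        exact (ps_empty h0 p).elim
      rw [h3]
      exact hq' 0
    · have hinj : Injective s.2 := by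
        obtain ⟨x, hx1, hx2, -⟩ := hq' 0
        intro a b hab
        exact hx1.1 (hx2 a b hab)
      choose Q hQ1 hQ2 using fun c => hE s (q c) h0 (hq' c)
      have h4 := hpoly ⟨some s.1, s.2⟩ Q hQ1
      obtain ⟨q', ⟨x, hx1, hx2, hx3⟩, hq2⟩ := hRR s (fun p => o fun c => Q c p) hinj h4
      refine ⟨x, hx1, hx2, fun j α hα => ?_⟩
      rw [← hx3 j α hα, hq2 j α hα]
      have h7 : (fun c => E (q c ⟨j, α⟩)) = fun c => Q c ⟨⟨j, lt_of_lt_of_le j.2 hmK⟩, α⟩ :=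
        funext fun c => (hQ2 c j α hα).symm
      exact congrArg (fun u => R (o u)) h7
  · have h5 := hoo (E x) (E y)
    have h6 : ∀ a b c d e f : Dm ρ m, (fun i => E ((![a, b, c, d, e, f] : Fin 6 → Dm ρ m) i)) =
        ![E a, E b, E c, E d, E e, E f] := by
      intro a b c d e f
      funext i
      fin_cases i <;> rfl
    constructor
    · show R (o fun i => E _) = R (o fun i => E _)
      rw [h6, h6, h5.1]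
    · show R (o fun i => E _) = R (o fun i => E _)
      rw [h6, h6, h5.2]

/-- The theorem for presentations with injections, cyclic actions on the types and fibres which do
not construct `K₃`. -/
theorem core' (h1 : P1) (hR : LR) (hKK : LK) (hT : LT) (hG : LG) (hprs : Prs 𝔸 𝔹)
    (hINJ : INJ (P0 𝔹) 𝔸 (c0 𝔹))
    (hcy : ∀ p : ℕ, 1 ≤ p → ∃ τ : (ZMod p → SS 𝔹) → SS 𝔹, Sbn (P0 𝔹) 𝔸 (c0 𝔹) τ ∧
      ∀ t, τ (fun i => t (i + 1)) = τ t)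
    (hols : ∀ M, 1 ≤ M → HasOlsak (tfL 𝔸 𝔹 M (c0 𝔹)) (tfL 𝔸 𝔹 M (c0 𝔹))) :
    ∃ (σ' : Sig) (Y : Type) (_ : Finite Y) (𝕋 : Str σ' Y),
      ¬ PPConstructsK3 𝕋 ∧ N793a5b8e.ManyOneReducible (CSP 𝔸) (CSP 𝕋) := by
  have hB := hprs.hb
  have hct := hprs.cnt
  have ht := hprs.tyi
  obtain ⟨N, hN⟩ := h1.lcs V ρ 𝔹 hB
  obtain ⟨lo, hord⟩ := hT.orl V ρ 𝔹 hB hct
  obtain ⟨m, hm, hcyg⟩ := hKK.cyg V ρ 𝔹 N hB hN
  have hcnz : Cnz 𝔸 𝔹 := cnz_of h1 hR hB ht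
  obtain ⟨M₂, hM₂⟩ := hT.bdl V ρ 𝔹 N hB hN
  let M := max M₂ (max 3 (ρ.width + 1))
  have hw : ∀ l, ρ.ar l < M := fun l =>
    lt_of_lt_of_le (Nat.lt_succ_of_le (Finset.le_sup (f := ρ.ar) (Finset.mem_univ l)))
      (le_trans (le_max_right _ _) (le_max_right _ _))
  have hbase : BaseL 𝔸 𝔹 M :=
    ⟨hprs, le_trans (le_max_left _ _) (le_max_right _ _), fun l => ⟨hB.ar l, hw l⟩,
      hM₂ M (le_max_left _ _), hord⟩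
  have hols' := hols M (by have := hbase.three; omega)
  -- the prime
  obtain ⟨p, hp1, hp2⟩ := Nat.exists_infinite_primes (Nat.card (Dm ρ M) + 3)
  obtain ⟨f, hf, hfc⟩ := hG.cyc _ _ _ hols' p hp2 (by omega)
  obtain ⟨τ, hτ, hτc⟩ := hcy p hp2.one_lt.le
  have : NeZero p := ⟨hp2.ne_zero⟩
  obtain ⟨κ, hκ⟩ := hKK.krl V σ ρ 𝔸 𝔹 m hB hord ht hm hcyg hcnz (ZMod p) τ hτ
  obtain ⟨κ', hκ', hκc⟩ := hG.cybr σ V _ _ (P0 𝔹) 𝔸 (c0 𝔹)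
    (hG.bhir σ V _ _ (P0 𝔹) 𝔸 (c0 𝔹) hINJ) p hp2 τ κ hκ hτc
  obtain ⟨Ψ, hΨ⟩ := hKK.cbl V σ ρ 𝔸 𝔹 hB hcnz (ZMod p) τ κ' hκ'
  obtain ⟨F, hFF⟩ := hT.tfl V σ ρ 𝔸 𝔹 M hbase (ZMod p) τ κ' Ψ hΨ
  obtain ⟨u, hu1, hu2⟩ := hT.cpl V σ ρ 𝔸 𝔹 M hbase p f hp2 hf hfc τ κ' F hFF hτc hκc
  obtain ⟨v₀⟩ := hB.ne
  have hne : Nonempty (El (SS 𝔹) ρ M) := ⟨⟨⟨0, by have := hbase.three; omega⟩,
    ⟨fun _ => vs 𝔹 v₀, fun _ _ => True, fun _ _ _ => True, fun φ => φ fun _ _ => True⟩⟩⟩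
  exact ⟨_, El (SS 𝔹) ρ M, inferInstance, tpL 𝔸 𝔹 M, hG.nkc _ _ _ p u hp2 hu1 hu2,
    Pool.Agent.H50.AR.RED.red_gen _ (hT.rel V σ ρ 𝔸 𝔹 M hbase)⟩

end

end Pool.Agent.H57.CS
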